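import Pool.Agent.H971.FV.Main

/-! `MP_83f2fc_pr`: a finite measure `Λ` on `[0,1]` in regime Intensive infinity, without atoms at
`0` and `1`, whose Fleming-Viot process does not admit an infinite sequence of Eves. -/

open MeasureTheory ProbabilityTheory Filter Topology Set Pool.Agent.H971.FV
open scoped ENNReal NNReal unitInterval

universe u

namespace Pool.Agent.Results.MP_83f2fc_pr.IntensiveInftyEvesDisproof

/-- There is a finite measure `Λ` on `[0,1]` in regime Intensive infinity, with `Λ({0}) = 0` and
`Λ({1}) = 0`, such that every `Λ`-Fleming-Viot process started from Lebesgue measure fails (with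
positive outer probability) to have an infinite sequence of Eves. -/
theorem result : ∃ Λ : Measure ℝ, IntensiveInfty Λ ∧ Λ {1} = 0 ∧
    ∀ (Ω : Type u) [MeasurableSpace Ω] (P : Measure Ω) [IsProbabilityMeasure P]
      (ρ : ℝ≥0 → Ω → ProbabilityMeasure I), IsFlemingViot Λ P ρ →
      ¬ ∀ᵐ ω ∂P, HasEves (fun t => ρ t ω) :=
  ⟨Lam, intensive_Lam, Lam_one, fun _ _ _ _ _ h => not_ae_hasEves h⟩

end Pool.Agent.Results.MP_83f2fc_pr.IntensiveInftyEvesDisproof
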